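import Pool.Agent.U84.AWQ.Stm

/-!
# Project AWQ, package GA: gluing of alternative A over central projections
-/

set_option autoImplicit false

namespace Pool.Agent.U128.AWQ

open Pool.Agent.R456.CL Pool.Agent.U84.AWQ

universe u

section aux

variable {A : Type u} [CStarAlgebra A]

lemma pj_norm {p : A} (hp : PJ p) : ‖p‖ ≤ 1 := by
  have h1 : ‖p‖ * ‖p‖ = ‖p‖ := by
    rw [← CStarRing.norm_star_mul_self, hp.isSelfAdjoint.star_eq, hp.isIdempotentElem.eq]
  by_contra h
  push Not at h
  nlinarith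

lemma piso {v q : A} (hq : PJ q) (h : star v * v = q) : v * q = v := by
  have hq1 : star q = q := hq.isSelfAdjoint.star_eq
  have hq2 : q * q = q := hq.isIdempotentElem.eq
  have h1 : star (v * q - v) * (v * q - v) = 0 := by
    rw [star_sub, star_mul, hq1]
    calc (q * star v - star v) * (v * q - v) =
        q * (star v * v) * q - q * (star v * v) - (star v * v) * q + star v * v := by
          noncomm_ring
      _ = 0 := by
        rw [h, hq2, hq2]
        abel
  exact sub_eq_zero.1 ((CStarRing.star_mul_self_eq_zero_iff _).1 h1)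

lemma iso_norm {v q : A} (hq : PJ q) (h : star v * v = q) : ‖v‖ ≤ 1 := by
  have h1 : ‖v‖ * ‖v‖ = ‖q‖ := by rw [← CStarRing.norm_star_mul_self, h]
  have h2 := pj_norm hq
  by_contra h3
  push Not at h3
  nlinarith

lemma infin_of_central {w p : A} (hw : CP w) (hp : PJ p) (h : Infin (w * p)) : Infin p := by
  obtain ⟨v, h1, h2, h3⟩ := h
  have hw1 : w * w = w := hw.1.isIdempotentElem.eq
  have hws : star w = w := hw.1.isSelfAdjoint.star_eq
  have hwc := hw.2
  have hp1 : p * p = p := hp.isIdempotentElem.eq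
  have hps : star p = p := hp.isSelfAdjoint.star_eq
  have hq1 : (w * p) * (w * p) = w * p := by
    rw [hwc p, mul_assoc p w, ← mul_assoc w p, hwc p, mul_assoc p w w, hw1, ← mul_assoc, hp1]
  have hqs : star (w * p) = w * p := by rw [star_mul, hws, hps, hwc]
  have hq : PJ (w * p) := ⟨hq1, hqs⟩
  have h4 : v * (w * p) = v := piso hq h1
  have h5 : (w * p) * (v * star v) = v * star v := by
    have := congrArg star h2
    rwa [star_mul, hqs, star_mul, star_star] at this
  have h6 : (w * p) * v = v := by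
    calc (w * p) * v = (w * p) * (v * (w * p)) := by rw [h4]
      _ = (w * p) * (v * star v) * v := by rw [← h1]; noncomm_ring
      _ = v * (star v * v) := by rw [h5, mul_assoc]
      _ = v := by rw [h1, h4]
  have hwv : w * v = v := by
    calc w * v = w * ((w * p) * v) := by rw [h6]
      _ = (w * w) * p * v := by noncomm_ring
      _ = v := by rw [hw1, h6]
  have hvw : v * w = v := by rw [← hwc, hwv]
  obtain ⟨c, hc⟩ : ∃ c, c = 1 - w := ⟨_, rfl⟩
  have hcv : c * v = 0 := by rw [hc, sub_mul, one_mul, hwv, sub_self]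
  have hvc : v * c = 0 := by rw [hc, mul_sub, mul_one, hvw, sub_self]
  have hcs : star c = c := by rw [hc, star_sub, star_one, hws]
  have hcc : c * c = c := by rw [hc]; noncomm_ring; rw [hw1]; abel
  have hcp : c * p = p * c := by rw [hc, sub_mul, mul_sub, one_mul, mul_one, hwc]
  have hvsc : star v * c = 0 := by
    have := congrArg star hcv
    rwa [star_mul, hcs, star_zero] at this
  have hcvs : c * star v = 0 := by
    have := congrArg star hvc
    rwa [star_mul, hcs, star_zero] at this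
  have hsum : w * p + c * p = p := by rw [hc]; noncomm_ring
  have hVV : (v + c * p) * star (v + c * p) = v * star v + c * p := by
    rw [star_add, star_mul, hcs, hps]
    calc (v + c * p) * (star v + p * c) =
        v * star v + v * (p * c) + (c * p) * star v + c * p * (p * c) := by noncomm_ring
      _ = v * star v + c * p := by
        have e1 : v * (p * c) = 0 := by rw [← hcp, ← mul_assoc, hvc, zero_mul]
        have e2 : (c * p) * star v = 0 := by rw [hcp, mul_assoc, hcvs, mul_zero]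
        have e3 : c * p * (p * c) = c * p := by
          rw [mul_assoc, ← mul_assoc p p, hp1, ← hcp, ← mul_assoc, hcc]
        rw [e1, e2, e3, add_zero, add_zero]
  refine ⟨v + c * p, ?_, ?_, ?_⟩
  · rw [star_add, star_mul, hcs, hps]
    calc (star v + p * c) * (v + c * p) =
        star v * v + (star v * c) * p + p * (c * v) + p * (c * c) * p := by noncomm_ring
      _ = w * p + c * p := by
        rw [h1, hvsc, hcv, hcc, ← hcp, mul_assoc, hp1]; noncomm_ring
      _ = p := hsum
  · rw [hVV]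
    have h7 : star v * w = star v := by
      have := congrArg star hwv
      rwa [star_mul, hws] at this
    calc (v * star v + c * p) * p = v * (star v * w) * p + c * (p * p) := by
          rw [h7]; noncomm_ring
      _ = (v * star v) * (w * p) + c * (p * p) := by noncomm_ring
      _ = _ := by rw [h2, hp1]
  · rw [hVV]
    intro h8
    apply h3
    have h9 : v * star v + c * p = w * p + c * p := by rw [h8, hsum]
    exact add_right_cancel h9

end aux

/-- **package GA** -/
theorem t_GA : S_GA.{u} := by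
  intro A _ hG hN T ι w z hw horth hz hsup hDA
  choose g hPI hLe hTg hCB hCA using hDA
  choose P y hP1 hP2 hP3 hP4 hy1 hy2 hy3 hy4 hy5 using hCB
  choose e f y' he hf heg hfg hef hue huf hy'1 hy'2 hy'3 hy'4 hy'5 using hCA
  choose u hu1 hu2 using hue
  choose v hv1 hv2 using huf
  have wc : ∀ i x, w i * x = x * w i := fun i => (hw i).2
  have ww : ∀ i, w i * w i = w i := fun i => (hw i).1.isIdempotentElem.eq
  have ws : ∀ i, star (w i) = w i := fun i => (hw i).1.isSelfAdjoint.star_eq
  have wz : ∀ i, w i * z = w i := hsup.2.1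
  have zw : ∀ i, z * w i = w i := fun i => by rw [hz.2, wz]
  have zs : star z = z := hz.1.isSelfAdjoint.star_eq
  have zz : z * z = z := hz.1.isIdempotentElem.eq
  have mm : ∀ i a b, (a * b) * w i = (a * w i) * (b * w i) := fun i a b => by
    rw [mul_assoc a (w i), ← mul_assoc (w i) b, wc i b, mul_assoc b, ww, mul_assoc]
  have mb : ∀ i a b, (a - b) * w i = a * w i - b * w i := fun i a b => sub_mul _ _ _
  have ms : ∀ i a, star a * w i = star (a * w i) := fun i a => by rw [star_mul, ws, wc]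
  have msz : ∀ a, a * z = a → star a * z = star a := fun a ha => by
    have h1 : star (a * z) = star a * z := by rw [star_mul, zs, hz.2]
    rw [← h1, ha]
  have mz : ∀ a b, b * z = b → (a * b) * z = a * b := fun a b hb => by rw [mul_assoc, hb]
  have mzT : ∀ a b, a * z = a → (a * b) * z = a * b := fun a b ha => by
    rw [mul_assoc, ← hz.2, ← mul_assoc, ha]
  have sbz : ∀ a b, a * z = a → b * z = b → (a - b) * z = a - b := fun a b ha hb => by
    rw [sub_mul, ha, hb]
  have sep : ∀ a b, a * z = a → b * z = b → (∀ i, a * w i = b * w i) → a = b := by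
    intro a b ha hb h
    have h1 := hsup.2.2 (a - b) (fun i => by rw [sub_mul, h i, sub_self])
    rw [sub_mul, ha, hb] at h1
    exact sub_eq_zero.1 h1
  have gl : ∀ (x : ι → A) (M : ℝ), (∀ i, x i * w i = x i) → (∀ i, ‖x i‖ ≤ M) →
      ∃ X, X * z = X ∧ ∀ i, X * w i = x i := by
    intro x M hx hM
    obtain ⟨X, -, h2, -, h4⟩ := hG ι w x z M (fun i => (hw i).1) horth hsup
      (fun i => by rw [wc, hx]) hx hM
    exact ⟨X, h2, h4⟩
  have nm : ∀ (X : A) (c : ℝ), 0 ≤ c → X * z = X → (∀ i, ‖X * w i‖ ≤ c) → ‖X‖ ≤ c := by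
    intro X c hc hX h
    exact hN ι w z X c hc (fun i => (hw i).1) horth hsup (by rw [hz.2, hX]) hX
      (fun i => wc i X) (fun i => by rw [wc]; exact h i)
  have gw : ∀ i, g i * w i = g i := hLe
  have gg : ∀ i, g i * g i = g i := fun i => (hPI i).1.isIdempotentElem.eq
  have gs : ∀ i, star (g i) = g i := fun i => (hPI i).1.isSelfAdjoint.star_eq
  have wgw : ∀ i, (w i - g i) * w i = w i - g i := fun i => by rw [sub_mul, ww, gw]
  have ew : ∀ i, e i * w i = e i := fun i => by
    have h : e i * g i = e i := heg i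
    rw [← h, mul_assoc, gw]
  have fw : ∀ i, f i * w i = f i := fun i => by
    have h : f i * g i = f i := hfg i
    rw [← h, mul_assoc, gw]
  have Pw : ∀ i, P i * w i = P i := fun i => by
    rw [← hP2 i, mul_assoc, wgw]
  have yw : ∀ i, y i * w i = y i := fun i => by
    rw [← hy2 i, mul_assoc, wgw]
  have y'w : ∀ i, y' i * w i = y' i := fun i => by
    rw [← hy'2 i, mul_assoc, fw]
  have ug : ∀ i, u i * g i = u i := fun i => piso (hPI i).1 (hu1 i)
  have vg : ∀ i, v i * g i = v i := fun i => piso (hPI i).1 (hv1 i)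
  have uw : ∀ i, u i * w i = u i := fun i => by rw [← ug i, mul_assoc, gw]
  have vw : ∀ i, v i * w i = v i := fun i => by rw [← vg i, mul_assoc, gw]
  obtain ⟨G, Gz, Gw⟩ := gl g 1 gw (fun i => pj_norm (hPI i).1)
  obtain ⟨Q, Qz, Qw⟩ := gl P 1 Pw hP4
  obtain ⟨Y, Yz, Yw⟩ := gl y 8 yw hy5
  obtain ⟨E, Ez, Ew⟩ := gl e 1 ew (fun i => pj_norm (he i))
  obtain ⟨F, Fz, Fw⟩ := gl f 1 fw (fun i => pj_norm (hf i))
  obtain ⟨Y', Y'z, Y'w⟩ := gl y' 4000 y'w hy'5
  obtain ⟨U, Uz, Uw⟩ := gl u 1 uw (fun i => iso_norm (hPI i).1 (hu1 i))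
  obtain ⟨V, Vz, Vw⟩ := gl v 1 vw (fun i => iso_norm (hPI i).1 (hv1 i))
  have hGG : G * G = G := sep _ _ (mz _ _ Gz) Gz fun i => by rw [mm, Gw, gg]
  have hGs : star G = G := sep _ _ (msz _ Gz) Gz fun i => by rw [ms, Gw, gs]
  have hGp : PJ G := ⟨hGG, hGs⟩
  have zGz : (z - G) * z = z - G := by rw [sub_mul, zz, Gz]
  have zGw : ∀ i, (z - G) * w i = w i - g i := fun i => by rw [sub_mul, zw, Gw]
  have hT1 : ∀ i, (w i - g i) * (T * w i) * (w i - g i) = (w i - g i) * T * (w i - g i) := by
    intro i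
    have h1 : w i * (w i - g i) = w i - g i := by rw [wc, wgw]
    rw [mul_assoc, mul_assoc T, h1, ← mul_assoc]
  have hT2 : ∀ i, f i * (g i * (T * w i)) * e i = f i * (g i * T) * e i := by
    intro i
    have h1 : w i * e i = e i := by rw [wc, ew]
    calc f i * (g i * (T * w i)) * e i = f i * (g i * T) * (w i * e i) := by noncomm_ring
      _ = _ := by rw [h1]
  have hez : ∀ i, G * T * w i = g i * (T * w i) := fun i => by rw [mm, Gw]
  refine ⟨G, ⟨hGp, ?_⟩, Gz, ?_, ?_, ?_⟩
  · -- properly infinite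
    intro c hc hcG
    obtain ⟨i, hi⟩ : ∃ i, c * g i ≠ 0 := by
      by_contra hcon
      push Not at hcon
      apply hcG
      have h1 := hsup.2.2 (c * G) (fun i => by rw [mul_assoc, Gw, hcon i])
      rwa [mul_assoc, Gz] at h1
    have h2 := (hPI i).2 c hc hi
    have h3 : w i * (c * G) = c * g i := by rw [wc, mul_assoc, Gw]
    refine infin_of_central (hw i) ⟨?_, ?_⟩ (by rw [h3]; exact h2)
    · change (c * G) * (c * G) = c * G
      rw [hc.2 G, mul_assoc G c, ← mul_assoc c G, hc.2 G, mul_assoc G c c,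
        hc.1.isIdempotentElem.eq, ← mul_assoc, hGG]
    · change star (c * G) = c * G
      rw [star_mul, hGs, hc.1.isSelfAdjoint.star_eq, hc.2]
  · -- commutes with T
    refine sep _ _ (mz _ _ Gz) (mzT _ _ Gz) fun i => ?_
    rw [mul_assoc, Gw, hez, hTg, ← mul_assoc, mul_assoc (g i) T, ← wc i T, ← mul_assoc, gw]
  · -- the clean corner
    refine ⟨Q, Y, ?_, ?_, ?_, ?_, ?_, ?_, ?_, ?_, ?_⟩
    · exact sep _ _ (mz _ _ Qz) Qz fun i => by rw [mm, zGw, Qw, hP1]
    · exact sep _ _ (mz _ _ zGz) Qz fun i => by rw [mm, zGw, Qw, hP2]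
    · exact sep _ _ (mz _ _ Qz) Qz fun i => by rw [mm, Qw, hP3]
    · exact nm Q 1 zero_le_one Qz fun i => by rw [Qw]; exact hP4 i
    · exact sep _ _ (mz _ _ Yz) Yz fun i => by rw [mm, zGw, Yw, hy1]
    · exact sep _ _ (mz _ _ zGz) Yz fun i => by rw [mm, zGw, Yw, hy2]
    · refine sep _ _ (mz _ _ (sbz _ _ (mz _ _ zGz) Qz)) zGz fun i => ?_
      rw [mm, Yw, mb, mm, mm, zGw, Qw, hT1, hy3]
    · refine sep _ _ (mz _ _ Yz) zGz fun i => ?_
      rw [mm, Yw, mb, mm, mm, zGw, Qw, hT1, hy4]
    · exact nm Y 8 (by norm_num) Yz fun i => by rw [Yw]; exact hy5 i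
  · -- the invertible entry
    have hEE : E * E = E := sep _ _ (mz _ _ Ez) Ez fun i => by
      rw [mm, Ew, (he i).isIdempotentElem.eq]
    have hEs : star E = E := sep _ _ (msz _ Ez) Ez fun i => by
      rw [ms, Ew, (he i).isSelfAdjoint.star_eq]
    have hFF : F * F = F := sep _ _ (mz _ _ Fz) Fz fun i => by
      rw [mm, Fw, (hf i).isIdempotentElem.eq]
    have hFs : star F = F := sep _ _ (msz _ Fz) Fz fun i => by
      rw [ms, Fw, (hf i).isSelfAdjoint.star_eq]
    refine ⟨E, F, Y', ⟨hEE, hEs⟩, ⟨hFF, hFs⟩, ?_, ?_, ?_, ⟨U, ?_, ?_⟩, ⟨V, ?_, ?_⟩, ?_, ?_, ?_,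
      ?_, ?_⟩
    · exact sep _ _ (mz _ _ Gz) Ez fun i => by
        rw [mm, Ew, Gw]
        exact heg i
    · exact sep _ _ (mz _ _ Gz) Fz fun i => by
        rw [mm, Fw, Gw]
        exact hfg i
    · exact sep _ _ (mz _ _ Fz) (zero_mul _) fun i => by rw [mm, Ew, Fw, hef, zero_mul]
    · exact sep _ _ (mz _ _ Uz) Gz fun i => by rw [mm, ms, Uw, Gw, hu1]
    · exact sep _ _ (mz _ _ (msz _ Uz)) Ez fun i => by rw [mm, ms, Uw, Ew, hu2]
    · exact sep _ _ (mz _ _ Vz) Gz fun i => by rw [mm, ms, Vw, Gw, hv1]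
    · exact sep _ _ (mz _ _ (msz _ Vz)) Fz fun i => by rw [mm, ms, Vw, Fw, hv2]
    · exact sep _ _ (mz _ _ Y'z) Y'z fun i => by rw [mm, Ew, Y'w, hy'1]
    · exact sep _ _ (mz _ _ Fz) Y'z fun i => by rw [mm, Fw, Y'w, hy'2]
    · refine sep _ _ (mz _ _ (mz _ _ Ez)) Ez fun i => ?_
      rw [mm, mm, mm, Y'w, Ew, Fw, hez, hT2, hy'3]
    · refine sep _ _ (mz _ _ Y'z) Fz fun i => ?_
      rw [mm, mm, mm, Y'w, Ew, Fw, hez, hT2, hy'4]
    · exact nm Y' 4000 (by norm_num) Y'z fun i => by rw [Y'w]; exact hy'5 i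

end Pool.Agent.U128.AWQ
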